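import Pool.Agent.Helper69.RSW.Prob

/-!
# The van den Berg-Kesten inequality (increasing events, all edges open with probability `1/2`)

* `bk`: `P (A □ B) ≤ P A * P B` for increasing `A`, `B`;
* `bk_many`: `k` disjoint occurrences of the increasing event `A` have probability at most `(P A) ^ k`;
* `bk_moment`: exponential moments of the number of disjoint occurrences.
-/

set_option autoImplicit false
set_option linter.unusedSectionVars false

namespace Full.Perc

open Pool.Agent.Helper69.RSW

variable {E : Type*} [DecidableEq E]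

/-- disjoint occurrence -/
def Dis (A B : Finset E → Prop) (S : Finset E) : Prop :=
  ∃ U V : Finset E, U ⊆ S ∧ V ⊆ S ∧ Disjoint U V ∧ A U ∧ B V

lemma Dis.mono {A B A' B' : Finset E → Prop} (hA : ∀ S, A S → A' S) (hB : ∀ S, B S → B' S) {S T : Finset E}
    (hST : S ⊆ T) (h : Dis A B S) : Dis A' B' T := by
  obtain ⟨U, V, h1, h2, h3, h4, h5⟩ := h
  exact ⟨U, V, h1.trans hST, h2.trans hST, h3, hA U h4, hB V h5⟩

lemma up_Dis (A B : Finset E → Prop) : Up (Dis A B) := fun _ _ h => Dis.mono (fun _ h => h) (fun _ h => h) h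

lemma Dis.symm {A B : Finset E → Prop} {S : Finset E} (h : Dis A B S) : Dis B A S := by
  obtain ⟨U, V, h1, h2, h3, h4, h5⟩ := h
  exact ⟨V, U, h2, h1, h3.symm, h5, h4⟩

lemma Dis.and {A B : Finset E → Prop} (hA : Up A) (hB : Up B) {S : Finset E} (h : Dis A B S) :
    A S ∧ B S := by
  obtain ⟨U, V, h1, h2, -, h4, h5⟩ := h
  exact ⟨hA U S h1 h4, hB V S h2 h5⟩

lemma P_or_and (F : Finset E) (X Y : Finset E → Prop) :
    P F (fun S => X S ∧ Y S) + P F (fun S => X S ∨ Y S) ≤ P F X + P F Y := by
  classical
  unfold P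
  rw [← add_div, ← add_div]
  apply div_le_div_of_nonneg_right _ (by positivity)
  rw [← Nat.cast_add, ← Nat.cast_add, Nat.cast_le]
  have h := Finset.card_union_add_card_inter (F.powerset.filter X) (F.powerset.filter Y)
  have e1 : ∀ d : DecidablePred fun S => X S ∨ Y S, @Finset.filter _ (fun S => X S ∨ Y S) d F.powerset =
      F.powerset.filter X ∪ F.powerset.filter Y := by
    intro d; ext S; simp only [Finset.mem_filter, Finset.mem_union]; tauto
  have e2 : ∀ d : DecidablePred fun S => X S ∧ Y S, @Finset.filter _ (fun S => X S ∧ Y S) d F.powerset =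
      F.powerset.filter X ∩ F.powerset.filter Y := by
    intro d; ext S; simp only [Finset.mem_filter, Finset.mem_inter]; tauto
  rw [e1, e2]
  omega

/-- **BK inequality** -/
theorem bk_inc (F : Finset E) : ∀ (A B : Finset E → Prop), Inc F A → Inc F B →
    P F (Dis A B) ≤ P F A * P F B := by
  classical
  induction F using Finset.induction_on with
  | empty =>
    intro A B _ _
    have h1 : P (∅ : Finset E) (Dis A B) ≤ P (∅ : Finset E) (fun S => A S ∧ B S) := by
      refine P_mono fun S hS h => ?_
      obtain ⟨U, V, a1, a2, -, a4, a5⟩ := h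
      rw [Finset.subset_empty] at hS
      subst hS
      rw [Finset.subset_empty] at a1 a2
      subst a1 a2
      exact ⟨a4, a5⟩
    refine h1.trans ?_
    unfold P
    simp only [Finset.powerset_empty, Finset.card_empty, pow_zero, div_one]
    by_cases hA : A ∅ <;> by_cases hB : B ∅ <;>
      simp [Finset.filter_singleton, hA, hB]
  | insert e F he ih =>
    intro A B hA hB
    rw [P_insert he A, P_insert he B, P_insert he]
    have hA0 : Inc F A := fun S T h1 h2 h3 =>
      hA S T h1 (h2.trans (Finset.subset_insert _ _)) h3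
    have hB0 : Inc F B := fun S T h1 h2 h3 =>
      hB S T h1 (h2.trans (Finset.subset_insert _ _)) h3
    have hA1 : Inc F (fun S => A (insert e S)) := fun S T h1 h2 h3 =>
      hA _ _ (Finset.insert_subset_insert e h1) (Finset.insert_subset_insert e h2) h3
    have hB1 : Inc F (fun S => B (insert e S)) := fun S T h1 h2 h3 =>
      hB _ _ (Finset.insert_subset_insert e h1) (Finset.insert_subset_insert e h2) h3
    have i1 := ih (fun S => A (insert e S)) B hA1 hB0
    have i2 := ih A (fun S => B (insert e S)) hA0 hB1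
    have mA : P F A ≤ P F (fun S => A (insert e S)) :=
      P_mono (fun S hS h => hA S _ (Finset.subset_insert _ _) (Finset.insert_subset_insert e hS) h)
    have mB : P F B ≤ P F (fun S => B (insert e S)) :=
      P_mono (fun S hS h => hB S _ (Finset.subset_insert _ _) (Finset.insert_subset_insert e hS) h)
    have c0 : P F (Dis A B) ≤ P F (fun S => Dis (fun S => A (insert e S)) B S ∧
        Dis A (fun S => B (insert e S)) S) := by
      refine P_mono fun S hS h => ?_
      obtain ⟨U, V, a1, a2, a3, a4, a5⟩ := h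
      exact ⟨⟨U, V, a1, a2, a3, hA U _ (Finset.subset_insert _ _)
          (Finset.insert_subset_insert e (a1.trans hS)) a4, a5⟩,
        ⟨U, V, a1, a2, a3, a4, hB V _ (Finset.subset_insert _ _)
          (Finset.insert_subset_insert e (a2.trans hS)) a5⟩⟩
    have c1 : P F (fun S => Dis A B (insert e S)) ≤ P F (fun S => Dis (fun S => A (insert e S)) B S ∨
        Dis A (fun S => B (insert e S)) S) := by
      refine P_mono fun S hS h => ?_
      obtain ⟨U, V, a1, a2, a3, a4, a5⟩ := h
      have heS : e ∉ S := fun h => he (hS h)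
      by_cases hU : e ∈ U
      · left
        have hV : e ∉ V := Finset.disjoint_left.1 a3 hU
        refine ⟨U.erase e, V, ?_, ?_, ?_, ?_, a5⟩
        · rwa [← Finset.subset_insert_iff]
        · intro x hx
          rcases Finset.mem_insert.1 (a2 hx) with h1 | h1
          · exact absurd (h1 ▸ hx) hV
          · exact h1
        · exact a3.mono_left (Finset.erase_subset _ _)
        · show A (insert e (U.erase e))
          rwa [Finset.insert_erase hU]
      · right
        have hU' : U ⊆ S := by
          intro x hx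
          rcases Finset.mem_insert.1 (a1 hx) with h1 | h1
          · exact absurd (h1 ▸ hx) hU
          · exact h1
        refine ⟨U, V.erase e, hU', ?_, ?_, a4, ?_⟩
        · rwa [← Finset.subset_insert_iff]
        · exact a3.mono_right (Finset.erase_subset _ _)
        · show B (insert e (V.erase e))
          refine hB V _ ?_ ?_ a5
          · intro x hx
            by_cases hxe : x = e
            · rw [hxe]; exact Finset.mem_insert_self _ _
            · exact Finset.mem_insert_of_mem (Finset.mem_erase.2 ⟨hxe, hx⟩)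
          · refine Finset.insert_subset_insert e ?_
            intro x hx
            rcases Finset.mem_insert.1 (a2 (Finset.mem_of_mem_erase hx)) with h1 | h1
            · exact absurd h1 (Finset.ne_of_mem_erase hx)
            · exact hS h1
    have key := P_or_and F (fun S => Dis (fun S => A (insert e S)) B S) (fun S => Dis A (fun S => B (insert e S)) S)
    nlinarith [mul_nonneg (sub_nonneg.2 mA) (sub_nonneg.2 mB)]

theorem bk (F : Finset E) {A B : Finset E → Prop} (hA : Up A) (hB : Up B) :
    P F (Dis A B) ≤ P F A * P F B := bk_inc F A B (hA.inc F) (hB.inc F)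

/-- `k` disjoint occurrences of `A` -/
def Many (A : Finset E → Prop) (k : ℕ) (S : Finset E) : Prop :=
  ∃ f : Fin k → Finset E, (∀ i, f i ⊆ S) ∧ (∀ i j, i ≠ j → Disjoint (f i) (f j)) ∧ ∀ i, A (f i)

lemma up_Many (A : Finset E → Prop) (k : ℕ) : Up (Many A k) := by
  rintro S T hST ⟨f, h1, h2, h3⟩
  exact ⟨f, fun i => (h1 i).trans hST, h2, h3⟩

lemma many_zero (A : Finset E → Prop) (S : Finset E) : Many A 0 S :=
  ⟨fun i => i.elim0, fun i => i.elim0, fun i => i.elim0, fun i => i.elim0⟩

lemma many_one {A : Finset E → Prop} (hA : Up A) {S : Finset E} : Many A 1 S ↔ A S := by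
  constructor
  · rintro ⟨f, h1, -, h3⟩
    exact hA _ _ (h1 0) (h3 0)
  · intro h
    exact ⟨fun _ => S, fun _ => subset_rfl, fun i j hij => absurd (Subsingleton.elim i j) hij, fun _ => h⟩

lemma many_of_le {A : Finset E → Prop} {j k : ℕ} (hjk : j ≤ k) {S : Finset E} (h : Many A k S) :
    Many A j S := by
  obtain ⟨f, h1, h2, h3⟩ := h
  refine ⟨fun i => f (Fin.castLE hjk i), fun i => h1 _, fun i i' hii => h2 _ _ ?_, fun i => h3 _⟩
  intro h
  exact hii (Fin.castLE_injective hjk h)

lemma dis_of_many {A : Finset E → Prop} {k : ℕ} {S : Finset E} (h : Many A (k + 1) S) :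
    Dis A (Many A k) S := by
  classical
  obtain ⟨f, h1, h2, h3⟩ := h
  refine ⟨f 0, Finset.univ.biUnion fun i : Fin k => f i.succ, h1 0, ?_, ?_, h3 0, ?_⟩
  · intro x hx
    obtain ⟨i, -, hi⟩ := Finset.mem_biUnion.1 hx
    exact h1 _ hi
  · rw [Finset.disjoint_biUnion_right]
    intro i _
    exact h2 _ _ (Fin.succ_ne_zero i).symm
  · exact ⟨fun i => f i.succ, fun i => Finset.subset_biUnion_of_mem (fun i : Fin k => f i.succ) (Finset.mem_univ i),
      fun i j hij => h2 _ _ (fun h => hij (Fin.succ_injective _ h)), fun i => h3 _⟩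

/-- **BK for several occurrences of one event** -/
theorem bk_many (F : Finset E) {A : Finset E → Prop} (hA : Up A) (k : ℕ) : P F (Many A k) ≤ P F A ^ k := by
  induction k with
  | zero => rw [pow_zero]; exact P_le_one F _
  | succ k ih =>
    refine (P_mono fun S _ h => dis_of_many h).trans ?_
    refine (bk F hA (up_Many A k)).trans ?_
    rw [pow_succ, mul_comm]
    exact mul_le_mul_of_nonneg_right ih (P_nonneg F A)

/-- expectation of a function of the configuration -/
noncomputable def Ex (F : Finset E) (f : Finset E → ℝ) : ℝ := (∑ S ∈ F.powerset, f S) / 2 ^ F.card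

lemma Ex_mono {F : Finset E} {f g : Finset E → ℝ} (h : ∀ S ⊆ F, f S ≤ g S) : Ex F f ≤ Ex F g := by
  unfold Ex
  exact div_le_div_of_nonneg_right (Finset.sum_le_sum fun S hS => h S (Finset.mem_powerset.1 hS))
    (by positivity)

lemma Ex_congr {F : Finset E} {f g : Finset E → ℝ} (h : ∀ S ⊆ F, f S = g S) : Ex F f = Ex F g := by
  unfold Ex
  rw [Finset.sum_congr rfl fun S hS => h S (Finset.mem_powerset.1 hS)]

lemma Ex_add (F : Finset E) (f g : Finset E → ℝ) : Ex F (fun S => f S + g S) = Ex F f + Ex F g := by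
  unfold Ex; rw [Finset.sum_add_distrib, add_div]

lemma Ex_mul (F : Finset E) (c : ℝ) (f : Finset E → ℝ) : Ex F (fun S => c * f S) = c * Ex F f := by
  unfold Ex; rw [← Finset.mul_sum, mul_div_assoc]

lemma Ex_const (F : Finset E) (c : ℝ) : Ex F (fun _ => c) = c := by
  unfold Ex
  rw [Finset.sum_const, Finset.card_powerset, nsmul_eq_mul]
  push_cast
  field_simp

lemma Ex_sum {ι : Type*} (F : Finset E) (I : Finset ι) (f : ι → Finset E → ℝ) :
    Ex F (fun S => ∑ i ∈ I, f i S) = ∑ i ∈ I, Ex F (f i) := by
  unfold Ex; rw [Finset.sum_comm, Finset.sum_div]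

open Classical in
lemma Ex_ite (F : Finset E) (A : Finset E → Prop) : Ex F (fun S => if A S then 1 else 0) = P F A := by
  unfold Ex P
  rw [Finset.sum_ite, Finset.sum_const_zero, add_zero, Finset.sum_const, nsmul_eq_mul, mul_one]

lemma Ex_nonneg {F : Finset E} {f : Finset E → ℝ} (h : ∀ S ⊆ F, 0 ≤ f S) : 0 ≤ Ex F f := by
  have := Ex_mono (F := F) (f := fun _ => 0) (g := f) h
  rwa [Ex_const] at this

/-- tail sum for exponential moments -/
theorem Ex_pow_le {F : Finset E} {D : Finset E → ℕ} {x q : ℝ} (hx : 1 ≤ x) (hq : 0 ≤ q) (hxq : x * q < 1)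
    (hD : ∀ k : ℕ, P F (fun S => k + 1 ≤ D S) ≤ q ^ (k + 1)) :
    Ex F (fun S => x ^ D S) ≤ (1 - q) / (1 - x * q) := by
  classical
  obtain ⟨N, hN⟩ : ∃ N : ℕ, ∀ S ⊆ F, D S ≤ N := by
    refine ⟨F.powerset.sup D, fun S hS => Finset.le_sup (f := D) (Finset.mem_powerset.2 hS)⟩
  have e1 : ∀ S ⊆ F, x ^ D S = 1 + ∑ k ∈ Finset.range N, (x - 1) * x ^ k * (if k + 1 ≤ D S then 1 else 0) := by
    intro S hS
    have h1 : ∑ k ∈ Finset.range N, (x - 1) * x ^ k * (if k + 1 ≤ D S then (1 : ℝ) else 0) =
        ∑ k ∈ Finset.range (D S), (x ^ (k + 1) - x ^ k) := by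
      rw [← Finset.sum_filter_add_sum_filter_not (Finset.range N) (fun k => k + 1 ≤ D S)]
      have h2 : ∑ k ∈ (Finset.range N).filter (fun k => ¬ (k + 1 ≤ D S)),
          (x - 1) * x ^ k * (if k + 1 ≤ D S then (1 : ℝ) else 0) = 0 := by
        refine Finset.sum_eq_zero fun k hk => ?_
        rw [if_neg (Finset.mem_filter.1 hk).2, mul_zero]
      rw [h2, add_zero]
      have h3 : (Finset.range N).filter (fun k => k + 1 ≤ D S) = Finset.range (D S) := by
        ext k
        simp only [Finset.mem_filter, Finset.mem_range]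
        have := hN S hS
        omega
      rw [h3]
      refine Finset.sum_congr rfl fun k hk => ?_
      rw [if_pos (by simpa using Finset.mem_range.1 hk)]
      ring
    rw [h1, Finset.sum_range_sub]
    simp
  rw [Ex_congr e1, Ex_add, Ex_const, Ex_sum]
  have h4 : ∀ k ∈ Finset.range N, Ex F (fun S => (x - 1) * x ^ k * (if k + 1 ≤ D S then (1 : ℝ) else 0)) ≤
      (x - 1) * q * (x * q) ^ k := by
    intro k _
    have h5 := Ex_mul F ((x - 1) * x ^ k) (fun S => if k + 1 ≤ D S then (1 : ℝ) else 0)
    have h6 := Ex_ite F (fun S => k + 1 ≤ D S)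
    have h7 : Ex F (fun S => if k + 1 ≤ D S then (1 : ℝ) else 0) = P F (fun S => k + 1 ≤ D S) := by
      rw [← h6]
      refine Ex_congr fun S _ => ?_
      by_cases h : k + 1 ≤ D S <;> simp [h]
    rw [h5, h7]
    have h8 : 0 ≤ (x - 1) * x ^ k := mul_nonneg (by linarith) (by positivity)
    calc (x - 1) * x ^ k * P F (fun S => k + 1 ≤ D S) ≤ (x - 1) * x ^ k * q ^ (k + 1) :=
          mul_le_mul_of_nonneg_left (hD k) h8
      _ = (x - 1) * q * (x * q) ^ k := by rw [mul_pow, pow_succ]; ring
  have h9 : ∑ k ∈ Finset.range N, (x * q) ^ k ≤ 1 / (1 - x * q) := by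
    have hxq0 : 0 ≤ x * q := by positivity
    have := (summable_geometric_of_lt_one hxq0 hxq).sum_le_tsum (Finset.range N)
      (fun _ _ => by positivity)
    rwa [tsum_geometric_of_lt_one hxq0 hxq, ← one_div] at this
  have h10 : 0 < 1 - x * q := by linarith
  calc 1 + ∑ k ∈ Finset.range N, Ex F (fun S => (x - 1) * x ^ k * (if k + 1 ≤ D S then (1 : ℝ) else 0))
      ≤ 1 + ∑ k ∈ Finset.range N, (x - 1) * q * (x * q) ^ k := by
        gcongr with k hk
        exact h4 k hk
    _ = 1 + (x - 1) * q * ∑ k ∈ Finset.range N, (x * q) ^ k := by rw [Finset.mul_sum]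
    _ ≤ 1 + (x - 1) * q * (1 / (1 - x * q)) := by
        have : 0 ≤ (x - 1) * q := mul_nonneg (by linarith) hq
        gcongr
    _ = (1 - q) / (1 - x * q) := by field_simp; ring

/-- **exponential moments of the number of disjoint occurrences** -/
theorem bk_moment {F : Finset E} {A : Finset E → Prop} (hA : Up A) {D : Finset E → ℕ} {x q : ℝ} (hx : 1 ≤ x)
    (hq : P F A ≤ q) (hxq : x * q < 1) (hD : ∀ S ⊆ F, Many A (D S) S) :
    Ex F (fun S => x ^ D S) ≤ (1 - q) / (1 - x * q) := by
  refine Ex_pow_le hx ((P_nonneg F A).trans hq) hxq fun k => ?_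
  refine (P_mono (B := Many A (k + 1)) fun S hS h => many_of_le h (hD S hS)).trans ?_
  exact (bk_many F hA (k + 1)).trans (pow_le_pow_left₀ (P_nonneg F A) hq _)

end Full.Perc
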